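import Pool.Agent.Y837.PH.Wnd
import Pool.Agent.W762.AX.Lx
import Pool.Agent.W991.AX.Si
import Pool.Agent.W303.AX.UX1

/-! PH-AXX: the sum over the values of the variable of the axis, closed braid with its axis
(project PH of helper482). -/

set_option autoImplicit false

namespace Pool.Agent.Y837.PH

open Finset Filter Topology Metric
open Pool.Agent.W711.HT Pool.Agent.W719.AX Pool.Agent.Y482.Ph
open scoped Real

/-- the phase -/
noncomputable def qf (m : ℤ) (G : ℂ → ℂ) (u : ℂ) : ℂ :=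
  2 * π * Complex.I * m * u ^ 2 + (G (2 * π * u) - G 0)

/-- the summand -/
noncomputable def FF (m : ℤ) (X : ℕ → ℂ → ℂ) (G : ℂ → ℂ) (N : ℕ) (u : ℂ) : ℂ :=
  Complex.exp (-(N * G 0)) * (Ea (2 * m) N (2 * π * u) * X N (2 * π * u))

theorem FF_eq (m : ℤ) (X : ℕ → ℂ → ℂ) (G : ℂ → ℂ) (N : ℕ) (u : ℂ) :
    FF m X G N u = Complex.exp (N * qf m G u) *
      (Complex.exp (-(N * G (2 * π * u))) * X N (2 * π * u)) := by
  have hπ : (π : ℂ) ≠ 0 := by exact_mod_cast Real.pi_ne_zero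
  have h1 : Complex.exp (N * qf m G u) * Complex.exp (-(N * G (2 * π * u))) =
      Complex.exp (-(N * G 0)) * Ea (2 * m) N (2 * π * u) := by
    unfold Ea qf
    rw [← Complex.exp_add, ← Complex.exp_add]
    congr 1
    push_cast
    field_simp
    ring
  rw [← mul_assoc, h1]
  unfold FF
  ring

theorem Ea_diff (a : ℤ) (N : ℕ) : Differentiable ℂ (Ea a N) := by
  have : Ea a N = fun χ => Complex.exp (Complex.I * a * N * χ ^ 2 / (4 * π)) := rfl
  rw [this]
  fun_prop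

theorem FF_diff (m : ℤ) (X : ℕ → ℂ → ℂ) (G : ℂ → ℂ) (N : ℕ) (hX : Differentiable ℂ (X N)) :
    Differentiable ℂ (FF m X G N) := by
  have h1 : Differentiable ℂ fun u : ℂ => 2 * π * u := by fun_prop
  exact (((Ea_diff (2 * m) N).comp h1).mul (hX.comp h1)).const_mul _

/-- the real part of the phase -/
theorem qf_re {R B c : ℝ} (hR : 0 < R) {G : ℂ → ℂ} (hG : DifferentiableOn ℂ G (Rc R R))
    (hB : ∀ z ∈ Rc R R, ‖G z‖ ≤ B) (hc : ∀ z ∈ Rc R R, (deriv (deriv G) z).re ≤ -c)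
    (hev : ∀ z ∈ Rc R R, G (-z) = G z) (m : ℤ) (x y : ℝ) (hx : |x| < R / (4 * π))
    (hy : |y| < R / (4 * π)) :
    (qf m G (x + y * Complex.I)).re ≤ -(2 * π ^ 2 * c * x ^ 2) +
      (4 * π * |(m : ℝ)| + 4 * π ^ 2 * (16 * B / R ^ 2)) * |x| * |y| +
      (4 * π * |(m : ℝ)| + 4 * π ^ 2 * (16 * B / R ^ 2)) * y ^ 2 := by
  have hπ := Real.pi_pos
  have hx1 : |2 * π * x| < R / 2 := by
    rw [abs_mul, abs_of_pos (by positivity : (0 : ℝ) < 2 * π)]
    rw [lt_div_iff₀ (by positivity)] at hx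
    linarith
  have hy1 : |2 * π * y| < R / 2 := by
    rw [abs_mul, abs_of_pos (by positivity : (0 : ℝ) < 2 * π)]
    rw [lt_div_iff₀ (by positivity)] at hy
    linarith
  have h1 := vertBound hR hG hB hev (2 * π * x) (2 * π * y) hx1 hy1
  have h2 := realBound hR hG hc hev (2 * π * x) (by linarith)
  have e1 : (2 * π * ((x : ℂ) + y * Complex.I)) = ((2 * π * x : ℝ) : ℂ) +
      ((2 * π * y : ℝ) : ℂ) * Complex.I := by
    push_cast
    ring
  have e2 : (2 * π * Complex.I * m * ((x : ℂ) + y * Complex.I) ^ 2).re = -(4 * π * m * x * y) := by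
    have : 2 * π * Complex.I * m * ((x : ℂ) + y * Complex.I) ^ 2 =
        ((-(4 * π * m * x * y) : ℝ) : ℂ) + ((2 * π * m * (x ^ 2 - y ^ 2) : ℝ) : ℂ) * Complex.I := by
      push_cast
      linear_combination (4 * π * m * x * y + 2 * π * m * y ^ 2 * Complex.I) * Complex.I_sq
    rw [this, Complex.add_re, Complex.ofReal_re, Complex.re_ofReal_mul, Complex.I_re, mul_zero,
      add_zero]
  have h3 : (G (((2 * π * x : ℝ) : ℂ) + ((2 * π * y : ℝ) : ℂ) * Complex.I)).re ≤
      (G ((2 * π * x : ℝ) : ℂ)).re + 16 * B / R ^ 2 * (|2 * π * x| + |2 * π * y|) * |2 * π * y| := by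
    have := (Complex.re_le_norm (G (((2 * π * x : ℝ) : ℂ) + ((2 * π * y : ℝ) : ℂ) * Complex.I) -
      G ((2 * π * x : ℝ) : ℂ))).trans h1
    rw [Complex.sub_re] at this
    linarith
  unfold qf
  rw [Complex.add_re, Complex.sub_re, e1, e2]
  have e3 : |2 * π * x| = 2 * π * |x| := by
    rw [abs_mul, abs_of_pos (by positivity : (0 : ℝ) < 2 * π)]
  have e4 : |2 * π * y| = 2 * π * |y| := by
    rw [abs_mul, abs_of_pos (by positivity : (0 : ℝ) < 2 * π)]
  rw [e3, e4] at h3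
  have h4 : -(4 * π * m * x * y) ≤ 4 * π * |(m : ℝ)| * |x| * |y| := by
    refine (neg_le_abs _).trans (le_of_eq ?_)
    rw [abs_mul, abs_mul, abs_mul, abs_of_pos (by positivity : (0 : ℝ) < 4 * π)]
  have h5 : 0 ≤ 4 * π * |(m : ℝ)| * y ^ 2 := by positivity
  have h6 : |y| ^ 2 = y ^ 2 := sq_abs y
  have h7 : 16 * B / R ^ 2 * (2 * π * |x| + 2 * π * |y|) * (2 * π * |y|) =
      4 * π ^ 2 * (16 * B / R ^ 2) * |x| * |y| + 4 * π ^ 2 * (16 * B / R ^ 2) * y ^ 2 := by
    rw [← h6]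
    ring
  have h8 : c / 2 * (2 * π * x) ^ 2 = 2 * π ^ 2 * c * x ^ 2 := by ring
  nlinarith

theorem small (κ : ℝ) (hκ : 0 < κ) (m : ℕ) :
    ∀ᶠ N : ℕ in atTop, (N : ℝ) * Real.exp (-(N * κ)) ≤ 1 / (N : ℝ) ^ m := by
  have h1 : |Real.exp (-κ)| < 1 := by
    rw [abs_of_pos (Real.exp_pos _)]
    rw [← Real.exp_zero]
    exact Real.exp_lt_exp.2 (by linarith)
  have h2 := tendsto_pow_const_mul_const_pow_of_abs_lt_one (m + 1) h1
  filter_upwards [h2.eventually (gt_mem_nhds one_pos), eventually_gt_atTop 0] with N hN hN0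
  have hN0' : (0 : ℝ) < N := by exact_mod_cast hN0
  rw [le_div_iff₀ (by positivity)]
  have e : Real.exp (-(N * κ)) = Real.exp (-κ) ^ N := by
    rw [← Real.exp_nat_mul]
    congr 1
    ring
  rw [e]
  calc (N : ℝ) * Real.exp (-κ) ^ N * (N : ℝ) ^ m = (N : ℝ) ^ (m + 1) * Real.exp (-κ) ^ N := by ring
    _ ≤ 1 := hN.le

/-- the far part of the sum -/
theorem far {F : ℂ → ℂ} {N : ℕ} {CH c₁ K r η P : ℝ} (hb : Bnd F N CH c₁ K r) (hCH : 0 ≤ CH)
    (hc₁ : 0 < c₁) (hη : 0 < η) (hηP : η ≤ P) (hPr : P < r) (hN : 0 < N) :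
    ‖∑ p ∈ Icc (-(⌊P * N⌋₊ : ℤ)) ⌊P * N⌋₊, F ((p : ℂ) / N) -
      ∑ p ∈ Icc (-(⌊η * N⌋₊ : ℤ)) ⌊η * N⌋₊, F ((p : ℂ) / N)‖ ≤
      (2 * (P * N) + 1) * (CH * Real.exp (-(N * (c₁ * η ^ 2 / 8)))) := by
  have hNr : (0 : ℝ) < N := by exact_mod_cast hN
  have hP : 0 < P := by linarith
  have hDP : ⌊η * N⌋₊ ≤ ⌊P * N⌋₊ := Nat.floor_mono (mul_le_mul_of_nonneg_right hηP hNr.le)
  have hsub : Icc (-(⌊η * N⌋₊ : ℤ)) ⌊η * N⌋₊ ⊆ Icc (-(⌊P * N⌋₊ : ℤ)) ⌊P * N⌋₊ := by
    apply Icc_subset_Icc <;> omega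
  rw [← sum_sdiff hsub, add_sub_cancel_right]
  refine (norm_sum_le_of_le (f := fun p : ℤ => F ((p : ℂ) / N))
    (n := fun _ => CH * Real.exp (-(N * (c₁ * η ^ 2 / 8)))) _ ?_).trans ?_
  · intro p hp
    rw [Finset.mem_sdiff, Finset.mem_Icc, Finset.mem_Icc] at hp
    have h1 : ((p : ℂ) / N) = ((p / N : ℝ) : ℂ) := by push_cast; rfl
    rw [h1]
    have h2 : |(p : ℝ) / N| < r := by
      rw [abs_div, abs_of_pos hNr, div_lt_iff₀ hNr]
      have h3 : |p| ≤ (⌊P * N⌋₊ : ℤ) := abs_le.2 hp.1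
      have h4 : |(p : ℝ)| ≤ (⌊P * N⌋₊ : ℝ) := by exact_mod_cast h3
      have h5 : (⌊P * N⌋₊ : ℝ) ≤ P * N := Nat.floor_le (by positivity)
      calc |(p : ℝ)| ≤ P * N := h4.trans h5
        _ < r * N := mul_lt_mul_of_pos_right hPr hNr
    have h3 : η ≤ |(p : ℝ) / N| := by
      rw [abs_div, abs_of_pos hNr, le_div_iff₀ hNr]
      have h3 : (⌊η * N⌋₊ : ℤ) + 1 ≤ |p| := by
        by_contra hcon
        apply hp.2
        have : |p| ≤ (⌊η * N⌋₊ : ℤ) := by omega
        exact abs_le.1 this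
      have h4 : (⌊η * N⌋₊ : ℝ) + 1 ≤ |(p : ℝ)| := by exact_mod_cast h3
      exact (Nat.lt_floor_add_one _).le.trans h4
    refine (hb.real (by linarith) _ h2).trans ?_
    refine mul_le_mul_of_nonneg_left (Real.exp_le_exp.2 ?_) hCH
    rw [neg_le_neg_iff]
    refine mul_le_mul_of_nonneg_left ?_ hNr.le
    rw [← sq_abs ((p : ℝ) / N)]
    have a3 : c₁ * η ^ 2 ≤ c₁ * |(p : ℝ) / N| ^ 2 := by gcongr
    nlinarith [mul_pos hc₁ (pow_pos hη 2)]
  · rw [sum_const, nsmul_eq_mul]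
    refine mul_le_mul_of_nonneg_right ?_ (by positivity)
    have h1 : (Icc (-(⌊P * N⌋₊ : ℤ)) ⌊P * N⌋₊ \ Icc (-(⌊η * N⌋₊ : ℤ)) ⌊η * N⌋₊).card ≤
        2 * ⌊P * N⌋₊ + 1 := by
      refine (card_le_card Finset.sdiff_subset).trans ?_
      rw [Int.card_Icc]
      omega
    have h2 : (⌊P * N⌋₊ : ℝ) ≤ P * N := Nat.floor_le (by positivity)
    calc _ ≤ ((2 * ⌊P * N⌋₊ + 1 : ℕ) : ℝ) := by exact_mod_cast h1
      _ ≤ 2 * (P * N) + 1 := by
        push_cast
        linarith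

theorem qf_deriv {R : ℝ} {G : ℂ → ℂ} (hG : DifferentiableOn ℂ G (Rc R R)) (m : ℤ)
    (u : ℂ) (hu : 2 * π * u ∈ Rc R R) :
    HasDerivAt (qf m G) (4 * π * Complex.I * m * u + 2 * π * deriv G (2 * π * u)) u := by
  have h1 : HasDerivAt (fun u : ℂ => 2 * π * u) (2 * π) u := by
    simpa using (hasDerivAt_id u).const_mul (2 * π : ℂ)
  have h2 := (hG.differentiableAt ((rcOpen R R).mem_nhds hu)).hasDerivAt
  have h3 : HasDerivAt (fun u : ℂ => G (2 * π * u)) (deriv G (2 * π * u) * (2 * π)) u :=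
    h2.comp u h1
  have h4 : HasDerivAt (fun u : ℂ => 2 * π * Complex.I * m * u ^ 2)
      (2 * π * Complex.I * m * (2 * u)) u := by
    simpa using (hasDerivAt_pow 2 u).const_mul (2 * π * Complex.I * m)
  refine (h4.add (h3.sub_const (G 0))).congr_deriv ?_
  ring

theorem axx : S_AXX := by
  intro R c B hR hR1 hc X G A hX hXev hG hev hGB hGX m
  have hπ := Real.pi_pos
  have hπ3 := Real.pi_gt_three
  have hB : ∀ z ∈ Rc R R, ‖G z‖ ≤ B := fun z hz => (hGB z hz).1
  have hcc : ∀ z ∈ Rc R R, (deriv (deriv G) z).re ≤ -c := fun z hz => (hGB z hz).2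
  have h0 : (0 : ℂ) ∈ Rc R R := ⟨by simpa using hR, by simpa using hR⟩
  have hB0 : 0 ≤ B := (norm_nonneg _).trans (hB 0 h0)
  obtain ⟨r, hr⟩ : ∃ r : ℝ, r = R / (4 * π) := ⟨_, rfl⟩
  have hr0 : 0 < r := by rw [hr]; positivity
  obtain ⟨K, hK⟩ : ∃ K : ℝ, K = 4 * π * |(m : ℝ)| + 4 * π ^ 2 * (16 * B / R ^ 2) := ⟨_, rfl⟩
  have hK0 : 0 ≤ K := by rw [hK]; positivity
  obtain ⟨c₁, hc₁⟩ : ∃ c₁ : ℝ, c₁ = 2 * π ^ 2 * c := ⟨_, rfl⟩
  have hc₁0 : 0 < c₁ := by rw [hc₁]; positivity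
  -- the points of the small disc
  have hin : ∀ u ∈ ball (0 : ℂ) r, 2 * π * u ∈ Rc R R := by
    intro u hu
    rw [mem_ball, dist_zero_right, hr, lt_div_iff₀ (by positivity)] at hu
    have h1 : ‖(2 * π * u : ℂ)‖ < R := by
      rw [norm_mul, norm_mul, Complex.norm_real, Real.norm_eq_abs, abs_of_pos hπ]
      have : ‖(2 : ℂ)‖ = 2 := by norm_num
      rw [this]
      nlinarith [norm_nonneg u]
    exact ⟨(Complex.abs_re_le_norm _).trans_lt h1, (Complex.abs_im_le_norm _).trans_lt h1⟩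
  have hmaps : Set.MapsTo (fun u : ℂ => 2 * π * u) (ball (0 : ℂ) r) (Rc R R) :=
    fun u hu => hin u hu
  have hlin : DifferentiableOn ℂ (fun u : ℂ => 2 * π * u) (ball (0 : ℂ) r) := by fun_prop
  have hdq : ∀ u ∈ ball (0 : ℂ) r, deriv (qf m G) u =
      4 * π * Complex.I * m * u + 2 * π * deriv G (2 * π * u) :=
    fun u hu => (qf_deriv hG m u (hin u hu)).deriv
  have hdG0 := deriv_zero hR hev
  have h0r : (0 : ℂ) ∈ ball (0 : ℂ) r := mem_ball_self hr0
  have hddq : deriv (deriv (qf m G)) 0 = 4 * π * Complex.I * m + 4 * π ^ 2 * deriv (deriv G) 0 := by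
    have e1 : deriv (qf m G) =ᶠ[𝓝 0] fun u : ℂ =>
        4 * π * Complex.I * m * u + 2 * π * deriv G (2 * π * u) := by
      filter_upwards [isOpen_ball.mem_nhds h0r] with u hu
      exact hdq u hu
    rw [e1.deriv_eq]
    have h1 : HasDerivAt (fun u : ℂ => 2 * π * u) (2 * π) 0 := by
      simpa using (hasDerivAt_id (0 : ℂ)).const_mul (2 * π : ℂ)
    have h2 : HasDerivAt (deriv G) (deriv (deriv G) 0) (2 * π * (0 : ℂ)) := by
      rw [mul_zero]
      exact ((hG.deriv (rcOpen R R)).differentiableAt ((rcOpen R R).mem_nhds h0)).hasDerivAt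
    have h3 : HasDerivAt (fun u : ℂ => deriv G (2 * π * u)) (deriv (deriv G) 0 * (2 * π)) 0 :=
      h2.comp (0 : ℂ) h1
    have h4 : HasDerivAt (fun u : ℂ => 4 * π * Complex.I * m * u) (4 * π * Complex.I * m) 0 := by
      simpa using (hasDerivAt_id (0 : ℂ)).const_mul (4 * π * Complex.I * m)
    have h5 : HasDerivAt (fun u : ℂ => 4 * π * Complex.I * m * u + 2 * π * deriv G (2 * π * u))
        (4 * π * Complex.I * m + 2 * π * (deriv (deriv G) 0 * (2 * π))) 0 :=
      h4.add (h3.const_mul (2 * π : ℂ))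
    rw [h5.deriv]
    ring
  have hddre : (deriv (deriv (qf m G)) 0).re ≤ -(4 * π ^ 2 * c) := by
    rw [hddq]
    have e1 : (4 * π * Complex.I * m + 4 * π ^ 2 * deriv (deriv G) 0 : ℂ) =
        ((4 * π * m : ℝ) : ℂ) * Complex.I + ((4 * π ^ 2 : ℝ) : ℂ) * deriv (deriv G) 0 := by
      push_cast
      ring
    rw [e1, Complex.add_re, Complex.re_ofReal_mul, Complex.re_ofReal_mul, Complex.I_re, mul_zero,
      zero_add]
    have := mul_le_mul_of_nonneg_left (hcc 0 h0) (by positivity : 0 ≤ 4 * π ^ 2)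
    linarith
  -- Laplace's method
  obtain ⟨δ', hδ'0, hδ'1, hL⟩ := Pool.Agent.W762.AX.lx Pool.Agent.W303.AX.uxbd r
    (2 * π * |(m : ℝ)| * r ^ 2 + 2 * B) (4 * π ^ 2 * c) hr0 (by positivity)
  obtain ⟨η, hη⟩ : ∃ η : ℝ, η = min δ' (min (r / 4) (1 / (K + 1))) := ⟨_, rfl⟩
  have hη0 : 0 < η := by
    rw [hη]
    exact lt_min hδ'0 (lt_min (by positivity) (by positivity))
  have hη1 : η ≤ δ' := by rw [hη]; exact min_le_left _ _
  have hη2 : η ≤ r / 4 := by rw [hη]; exact (min_le_right _ _).trans (min_le_left _ _)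
  have hη3 : η ≤ 1 / (K + 1) := by rw [hη]; exact (min_le_right _ _).trans (min_le_right _ _)
  have hηK : 3 * K * η ≤ π := by
    rw [le_div_iff₀ (by positivity)] at hη3
    nlinarith
  obtain ⟨h, hh⟩ : ∃ h : ℝ, h = min η (c₁ * η / (24 * (K + 1))) := ⟨_, rfl⟩
  have hh0 : 0 < h := by
    rw [hh]
    exact lt_min hη0 (by positivity)
  have hhη : h ≤ η := by rw [hh]; exact min_le_left _ _
  have hhc : 24 * (K * h) ≤ c₁ * η := by
    have : h ≤ c₁ * η / (24 * (K + 1)) := by rw [hh]; exact min_le_right _ _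
    rw [le_div_iff₀ (by positivity)] at this
    nlinarith
  obtain ⟨Y, hY, hY0⟩ := hL η hη0 hη1 Unit Set.univ (fun _ u => qf m G u)
    (fun N x => Complex.exp (-(N * G (2 * π * x.2))) * X N (2 * π * x.2))
    (fun k x => A k (2 * π * x.2))
    (fun _ _ => by
      refine ⟨?_, ?_, ?_, ?_, hddre⟩
      · intro u hu
        exact (qf_deriv hG m u (hin u hu)).differentiableAt.differentiableWithinAt
      · intro u hu
        have h1 := hB _ (hin u hu)
        have h2 := hB 0 h0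
        rw [mem_ball, dist_zero_right] at hu
        show ‖qf m G u‖ ≤ _
        unfold qf
        refine (norm_add_le _ _).trans (add_le_add ?_ ((norm_sub_le _ _).trans (by linarith)))
        rw [norm_mul, norm_mul, norm_mul, norm_mul, Complex.norm_I, norm_pow, Complex.norm_real,
          Real.norm_eq_abs, abs_of_pos hπ, Complex.norm_intCast]
        have : ‖(2 : ℂ)‖ = 2 := by norm_num
        rw [this, mul_one]
        refine mul_le_mul_of_nonneg_left ?_ (by positivity)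
        exact pow_le_pow_left₀ (norm_nonneg _) hu.le 2
      · show qf m G 0 = 0
        unfold qf
        simp
      · show deriv (qf m G) 0 = 0
        rw [hdq 0 h0r, mul_zero, mul_zero, hdG0]
        ring)
    (Eventually.of_forall fun N _ _ => by
      have h1 : DifferentiableOn ℂ (fun u : ℂ => G (2 * π * u)) (ball (0 : ℂ) r) :=
        hG.comp hlin hmaps
      have h2 : DifferentiableOn ℂ (fun u : ℂ => X N (2 * π * u)) (ball (0 : ℂ) r) :=
        (hX N).comp_differentiableOn hlin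
      exact ((((h1.const_mul (N : ℂ)).neg).cexp).mul h2).continuousOn)
    (fun k _ _ => (hGX.an k).comp hlin hmaps)
    (by
      intro K'
      obtain ⟨C, hC⟩ := hGX.ux K'
      refine ⟨C, ?_⟩
      filter_upwards [hC] with N hN x hx
      exact hN _ (hin _ hx.2))
  refine ⟨fun k => Y k (), ?_, ?_⟩
  · show Y 0 () ≠ 0
    rw [hY0 () (Set.mem_univ _)]
    have h1 : A 0 (2 * π * (0 : ℂ)) ≠ 0 := by
      rw [mul_zero]
      exact hGX.nz 0 h0
    refine mul_ne_zero h1 ?_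
    have h2 : deriv (deriv (qf m G)) 0 ≠ 0 := by
      intro h3
      rw [h3] at hddre
      have : 0 < 4 * π ^ 2 * c := by positivity
      simp at hddre
      linarith
    have h3 : (2 * π / -(deriv (deriv (qf m G)) 0) : ℂ) ≠ 0 :=
      div_ne_zero (by exact_mod_cast (by positivity : (2 * π : ℝ) ≠ 0)) (neg_ne_zero.2 h2)
    rw [Complex.cpow_def_of_ne_zero h3]
    exact Complex.exp_ne_zero _
  · intro K'
    obtain ⟨CH, hCH⟩ := hGX.ux 0
    obtain ⟨CY, hCY⟩ := hY K'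
    obtain ⟨κ, hκ⟩ : ∃ κ : ℝ, κ = min (c₁ * η ^ 2 / 8) (π * h) := ⟨_, rfl⟩
    have hκ0 : 0 < κ := by
      rw [hκ]
      exact lt_min (by positivity) (by positivity)
    have hκ1 : κ ≤ c₁ * η ^ 2 / 8 := by rw [hκ]; exact min_le_left _ _
    have hκ2 : κ ≤ π * h := by rw [hκ]; exact min_le_right _ _
    refine ⟨CY + 20 * |CH|, ?_⟩
    have t1 : Tendsto (fun N : ℕ => (N : ℝ) * η) atTop atTop :=
      tendsto_natCast_atTop_atTop.atTop_mul_const hη0
    have t2 : Tendsto (fun N : ℕ => (N : ℝ) * h) atTop atTop :=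
      tendsto_natCast_atTop_atTop.atTop_mul_const hh0
    filter_upwards [hCH, hCY, small κ hκ0 K', t1.eventually_ge_atTop 1, t2.eventually_ge_atTop 1,
      eventually_gt_atTop 0] with N gH gY gs gη gh gN0
    have hN0 : (0 : ℝ) < N := by exact_mod_cast gN0
    have hN1 : (1 : ℝ) ≤ N := by exact_mod_cast gN0
    have hNc : (N : ℂ) ≠ 0 := by exact_mod_cast hN0.ne'
    -- the bound of the summand
    have hbnd : Bnd (FF m X G N) N |CH| c₁ K r := by
      intro x y hx hy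
      rw [FF_eq, norm_mul, mul_comm]
      have hxy : 2 * π * ((x : ℂ) + y * Complex.I) ∈ Rc R R := by
        have e1 : (2 * π * ((x : ℂ) + y * Complex.I)) = ((2 * π * x : ℝ) : ℂ) +
            ((2 * π * y : ℝ) : ℂ) * Complex.I := by
          push_cast
          ring
        rw [hr, lt_div_iff₀ (by positivity)] at hx hy
        rw [e1]
        constructor
        · simp only [Complex.add_re, Complex.ofReal_re, Complex.mul_re, Complex.I_re, mul_zero,
            Complex.ofReal_im, Complex.I_im, mul_one, sub_self, add_zero]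
          rw [abs_mul, abs_of_pos (by positivity : (0 : ℝ) < 2 * π)]
          nlinarith [abs_nonneg x]
        · simp only [Complex.add_im, Complex.ofReal_im, Complex.mul_im, Complex.ofReal_re,
            Complex.I_im, mul_one, Complex.I_re, mul_zero, add_zero, zero_add]
          rw [abs_mul, abs_of_pos (by positivity : (0 : ℝ) < 2 * π)]
          nlinarith [abs_nonneg y]
      have h1 := gH _ hxy
      simp only [range_zero, sum_empty, sub_zero, pow_zero, div_one] at h1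
      refine mul_le_mul (h1.trans (le_abs_self _)) ?_ (norm_nonneg _) (abs_nonneg _)
      rw [Complex.norm_exp]
      refine Real.exp_le_exp.2 ?_
      have e2 : ((N : ℂ) * qf m G (x + y * Complex.I)).re =
          N * (qf m G (x + y * Complex.I)).re := by
        rw [← Complex.ofReal_natCast, Complex.re_ofReal_mul]
      rw [e2]
      refine mul_le_mul_of_nonneg_left ?_ hN0.le
      rw [hc₁, hK]
      exact qf_re hR hG hB hcc hev m x y (by rwa [← hr]) (by rwa [← hr])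
    have hFd := FF_diff m X G N (hX N)
    have w1 := window Pool.Agent.W991.AX.si hFd hbnd (abs_nonneg CH) hc₁0 hK0 hη0 (by linarith)
      hηK hh0 hhη hhc gη gh
    have w2 := far (P := R / 4 / (2 * π)) hbnd (abs_nonneg CH) hc₁0 hη0
      (by
        refine hη2.trans ?_
        rw [hr, div_div, div_div, div_le_div_iff₀ (by positivity) (by positivity)]
        nlinarith [mul_pos hR hπ])
      (by
        rw [hr, div_div, div_lt_div_iff₀ (by positivity) (by positivity)]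
        nlinarith [mul_pos hR hπ]) gN0
    -- the sum
    have hP : R / 4 * N / (2 * π) = R / 4 / (2 * π) * N := by ring
    have e1 : Complex.exp (-(N * G 0)) * nearS R N (fun χ => Ea (2 * m) N χ * X N χ) =
        ∑ p ∈ Icc (-(⌊R / 4 / (2 * π) * N⌋₊ : ℤ)) ⌊R / 4 / (2 * π) * N⌋₊,
          FF m X G N ((p : ℂ) / N) := by
      unfold nearS
      rw [hP, mul_sum]
      refine sum_congr rfl fun p _ => ?_
      unfold FF
      rw [mul_div_assoc]
    obtain ⟨T, hT⟩ : ∃ T : ℝ, T = |CH| * Real.exp (-(N * κ)) := ⟨_, rfl⟩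
    have hT0 : 0 ≤ T := by rw [hT]; positivity
    have hT1 : |CH| * Real.exp (-(N * (c₁ * η ^ 2 / 8))) ≤ T := by
      rw [hT]
      refine mul_le_mul_of_nonneg_left (Real.exp_le_exp.2 ?_) (abs_nonneg _)
      have := mul_le_mul_of_nonneg_left hκ1 hN0.le
      linarith
    have hT2 : |CH| * Real.exp (-(N * (π * h))) ≤ T := by
      rw [hT]
      refine mul_le_mul_of_nonneg_left (Real.exp_le_exp.2 ?_) (abs_nonneg _)
      have := mul_le_mul_of_nonneg_left hκ2 hN0.le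
      linarith
    have hη4 : η ≤ 1 := by
      refine hη3.trans ?_
      rw [div_le_one (by positivity)]
      linarith
    have hPle : R / 4 / (2 * π) ≤ 1 := by
      rw [div_le_one (by positivity)]
      linarith
    have hmain : ‖Complex.exp (-(N * G 0)) * nearS R N (fun χ => Ea (2 * m) N χ * X N χ) -
        N * ∫ x in (-η)..η, FF m X G N x‖ ≤ 20 * N * T := by
      rw [e1]
      have e2 := norm_sub_le_norm_sub_add_norm_sub
        (∑ p ∈ Icc (-(⌊R / 4 / (2 * π) * N⌋₊ : ℤ)) ⌊R / 4 / (2 * π) * N⌋₊,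
          FF m X G N ((p : ℂ) / N))
        (∑ p ∈ Icc (-(⌊η * N⌋₊ : ℤ)) ⌊η * N⌋₊, FF m X G N ((p : ℂ) / N))
        (N * ∫ x in (-η)..η, FF m X G N x)
      refine e2.trans ((add_le_add w2 w1).trans ?_)
      have b1 : (2 * (R / 4 / (2 * π) * N) + 1) * (|CH| * Real.exp (-(N * (c₁ * η ^ 2 / 8)))) ≤
          (2 * N + 1) * T := by
        refine mul_le_mul ?_ hT1 (by positivity) (by positivity)
        have := mul_le_mul_of_nonneg_right hPle hN0.le
        linarith
      have b2 : (2 * (η * N) + 1) * (|CH| * Real.exp (-(N * (π * h)))) ≤ (2 * N + 1) * T := by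
        refine mul_le_mul ?_ hT2 (by positivity) (by positivity)
        have := mul_le_mul_of_nonneg_right hη4 hN0.le
        linarith
      have b3 : T ≤ N * T := le_mul_of_one_le_left hT0 hN1
      nlinarith
    -- conclusion
    have hsq0 : 0 < Real.sqrt N := Real.sqrt_pos.2 hN0
    have hsq1 : 1 ≤ Real.sqrt N := Real.one_le_sqrt.2 hN1
    have hsqc : ((Real.sqrt N : ℝ) : ℂ) ≠ 0 := by exact_mod_cast hsq0.ne'
    have hsq2 : ((Real.sqrt N : ℝ) : ℂ) * ((Real.sqrt N : ℝ) : ℂ) = (N : ℂ) := by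
      rw [← Complex.ofReal_mul, Real.mul_self_sqrt hN0.le]
      simp
    have gY' := gY () (Set.mem_univ _)
    have e3 : ∀ x : ℝ, Complex.exp (N * qf m G x) *
        (Complex.exp (-(N * G (2 * π * x))) * X N (2 * π * x)) = FF m X G N x := fun x =>
      (FF_eq m X G N x).symm
    simp only [e3] at gY'
    obtain ⟨I, hI⟩ : ∃ I : ℂ, I = ∫ x in (-η)..η, FF m X G N x := ⟨_, rfl⟩
    rw [← hI] at gY' hmain
    obtain ⟨Z, hZ⟩ : ∃ Z : ℂ, Z = nearS R N (fun χ => Ea (2 * m) N χ * X N χ) := ⟨_, rfl⟩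
    rw [← hZ] at hmain
    rw [← hZ]
    have e4 : N * Z / ((((Real.sqrt N) ^ 3 : ℝ) : ℂ) * Complex.exp (N * G 0)) =
        ((Real.sqrt N : ℝ) : ℂ)⁻¹ * (Complex.exp (-(N * G 0)) * Z) := by
      have := Complex.exp_ne_zero (N * G 0)
      rw [Complex.exp_neg, ← hsq2]
      push_cast
      field_simp
    have e5 : ((Real.sqrt N : ℝ) : ℂ) * I = ((Real.sqrt N : ℝ) : ℂ)⁻¹ * (N * I) := by
      rw [← hsq2]
      field_simp
    have e6 : N * Z / ((((Real.sqrt N) ^ 3 : ℝ) : ℂ) * Complex.exp (N * G 0)) -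
        ∑ k ∈ range K', Y k () / (N : ℂ) ^ k =
        ((Real.sqrt N : ℝ) : ℂ)⁻¹ * (Complex.exp (-(N * G 0)) * Z - N * I) +
        (((Real.sqrt N : ℝ) : ℂ) * I - ∑ k ∈ range K', Y k () / (N : ℂ) ^ k) := by
      rw [e4, e5]
      ring
    rw [e6, add_div]
    refine (norm_add_le _ _).trans ?_
    rw [add_comm (CY / (N : ℝ) ^ K')]
    refine add_le_add ?_ gY'
    rw [norm_mul, norm_inv, Complex.norm_real, Real.norm_eq_abs, abs_of_pos hsq0]
    calc (Real.sqrt N)⁻¹ * ‖Complex.exp (-(N * G 0)) * Z - N * I‖ ≤ 1 * (20 * N * T) :=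
          mul_le_mul (inv_le_one_of_one_le₀ hsq1) hmain (norm_nonneg _) zero_le_one
      _ = 20 * |CH| * (N * Real.exp (-(N * κ))) := by
          rw [hT]
          ring
      _ ≤ 20 * |CH| * (1 / (N : ℝ) ^ K') := mul_le_mul_of_nonneg_left gs (by positivity)
      _ = 20 * |CH| / (N : ℝ) ^ K' := by ring

end Pool.Agent.Y837.PH
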