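import Pool.Agent.Y482.Ph.Defs
import Pool.Agent.W613.AX.Win0

/-! Estimates for the sum over the values of the variable of the axis (project PH of helper482,
part AXX). -/

set_option autoImplicit false

namespace Pool.Agent.Y837.PH

open Finset Filter Topology Metric
open Pool.Agent.W711.HT Pool.Agent.W719.AX
open scoped Real

theorem rcOpen (ρ τ : ℝ) : IsOpen (Rc ρ τ) := by
  have h1 : Rc ρ τ = {z : ℂ | |z.re| < ρ} ∩ {z : ℂ | |z.im| < τ} := rfl
  rw [h1]
  exact (isOpen_lt (by fun_prop) (by fun_prop)).inter (isOpen_lt (by fun_prop) (by fun_prop))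

theorem rcConvex (ρ τ : ℝ) : Convex ℝ (Rc ρ τ) := by
  have h1 : Rc ρ τ = Complex.reLm ⁻¹' (Set.Ioo (-ρ) ρ) ∩ Complex.imLm ⁻¹' (Set.Ioo (-τ) τ) := by
    ext z
    simp [Rc, abs_lt]
  rw [h1]
  exact ((convex_Ioo _ _).linear_preimage _).inter ((convex_Ioo _ _).linear_preimage _)

theorem rcSub {R R' r : ℝ} (h : R' + r ≤ R) {z u : ℂ} (hz : z ∈ Rc R' R')
    (hu : u ∈ closedBall z r) : u ∈ Rc R R := by
  rw [mem_closedBall, dist_eq_norm] at hu
  have h1 := Complex.abs_re_le_norm (u - z)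
  have h2 := Complex.abs_im_le_norm (u - z)
  rw [Complex.sub_re] at h1
  rw [Complex.sub_im] at h2
  have h3 := abs_sub_abs_le_abs_sub u.re z.re
  have h4 := abs_sub_abs_le_abs_sub u.im z.im
  exact ⟨by linarith [hz.1], by linarith [hz.2]⟩

theorem derivBound {R R' r M : ℝ} (hr : 0 < r) (h : R' + r ≤ R) {f : ℂ → ℂ}
    (hf : DifferentiableOn ℂ f (Rc R R)) (hM : ∀ z ∈ Rc R R, ‖f z‖ ≤ M) :
    ∀ z ∈ Rc R' R', ‖deriv f z‖ ≤ M / r := by
  intro z hz
  have hsub : closedBall z r ⊆ Rc R R := fun u hu => rcSub h hz hu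
  exact Complex.norm_deriv_le_of_forall_mem_sphere_norm_le hr
    ((hf.mono (closure_ball_subset_closedBall.trans hsub)).diffContOnCl)
    (fun u hu => hM u (hsub (sphere_subset_closedBall hu)))

theorem deriv2Bound {R B : ℝ} (hR : 0 < R) {G : ℂ → ℂ} (hG : DifferentiableOn ℂ G (Rc R R))
    (hB : ∀ z ∈ Rc R R, ‖G z‖ ≤ B) :
    ∀ z ∈ Rc (R / 2) (R / 2), ‖deriv (deriv G) z‖ ≤ 16 * B / R ^ 2 := by
  have h1 : ∀ z ∈ Rc (3 * R / 4) (3 * R / 4), ‖deriv G z‖ ≤ B / (R / 4) :=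
    derivBound (by positivity) (by linarith) hG hB
  have h2 : DifferentiableOn ℂ (deriv G) (Rc (3 * R / 4) (3 * R / 4)) :=
    (hG.deriv (rcOpen _ _)).mono fun z hz => ⟨by linarith [hz.1], by linarith [hz.2]⟩
  intro z hz
  have h3 := derivBound (R := 3 * R / 4) (R' := R / 2) (r := R / 4) (by positivity) (by linarith)
    h2 h1 z hz
  refine h3.trans (le_of_eq ?_)
  field_simp
  ring

theorem deriv_zero {R : ℝ} (hR : 0 < R) {G : ℂ → ℂ} (hev : ∀ z ∈ Rc R R, G (-z) = G z) : deriv G 0 = 0 := by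
  have h0 : (0 : ℂ) ∈ Rc R R := ⟨by simpa using hR, by simpa using hR⟩
  have h1 : (fun z => G (-z)) =ᶠ[𝓝 0] G := by
    filter_upwards [(rcOpen R R).mem_nhds h0] with z hz
    exact hev z hz
  have h2 := h1.deriv_eq
  rw [deriv_comp_neg, neg_zero] at h2
  have h3 : (2 : ℂ) * deriv G 0 = 0 := by linear_combination -h2
  simpa using h3

theorem deriv1Bound {R B : ℝ} (hR : 0 < R) {G : ℂ → ℂ} (hG : DifferentiableOn ℂ G (Rc R R))
    (hB : ∀ z ∈ Rc R R, ‖G z‖ ≤ B) (hev : ∀ z ∈ Rc R R, G (-z) = G z) :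
    ∀ z ∈ Rc (R / 2) (R / 2), ‖deriv G z‖ ≤ 16 * B / R ^ 2 * ‖z‖ := by
  intro z hz
  have h0 : (0 : ℂ) ∈ Rc (R / 2) (R / 2) := ⟨by simpa using hR, by simpa using hR⟩
  have h1 := (rcConvex (R / 2) (R / 2)).norm_image_sub_le_of_norm_deriv_le (𝕜 := ℂ)
    (f := deriv G) (C := 16 * B / R ^ 2)
    (fun x hx => (hG.deriv (rcOpen _ _)).differentiableAt
      ((rcOpen _ _).mem_nhds ⟨by linarith [hx.1], by linarith [hx.2]⟩))
    (deriv2Bound hR hG hB) h0 hz
  rwa [deriv_zero hR hev, sub_zero, sub_zero] at h1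

/-- the function on a vertical line -/
theorem vertBound {R B : ℝ} (hR : 0 < R) {G : ℂ → ℂ} (hG : DifferentiableOn ℂ G (Rc R R))
    (hB : ∀ z ∈ Rc R R, ‖G z‖ ≤ B) (hev : ∀ z ∈ Rc R R, G (-z) = G z) (x y : ℝ)
    (hx : |x| < R / 2) (hy : |y| < R / 2) :
    ‖G (x + y * Complex.I) - G x‖ ≤ 16 * B / R ^ 2 * (|x| + |y|) * |y| := by
  have hB0 : 0 ≤ B := (norm_nonneg _).trans (hB 0 ⟨by simpa using hR, by simpa using hR⟩)
  set S : Set ℂ := Rc (R / 2) (R / 2) ∩ {z | z.re = x ∧ |z.im| ≤ |y|} with hS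
  have hconv : Convex ℝ S := by
    refine (rcConvex _ _).inter ?_
    have h1 : {z : ℂ | z.re = x ∧ |z.im| ≤ |y|} =
        Complex.reLm ⁻¹' {x} ∩ Complex.imLm ⁻¹' (Set.Icc (-|y|) |y|) := by
      ext z
      simp [abs_le]
    rw [h1]
    exact ((convex_singleton _).linear_preimage _).inter ((convex_Icc _ _).linear_preimage _)
  have h1 := hconv.norm_image_sub_le_of_norm_deriv_le (𝕜 := ℂ)
    (f := G) (C := 16 * B / R ^ 2 * (|x| + |y|)) (x := (x : ℂ)) (y := x + y * Complex.I)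
    (fun z hz => hG.differentiableAt
      ((rcOpen _ _).mem_nhds ⟨by linarith [hz.1.1], by linarith [hz.1.2]⟩))
    (by
      intro z hz
      refine (deriv1Bound hR hG hB hev z hz.1).trans ?_
      have h2 : ‖z‖ ≤ |x| + |y| := by
        refine (Complex.norm_le_abs_re_add_abs_im z).trans ?_
        rw [hz.2.1]
        linarith [hz.2.2]
      exact mul_le_mul_of_nonneg_left h2 (by positivity))
    ⟨⟨by simpa using hx, by simp; linarith⟩, by simp⟩
    ⟨⟨by simpa using hx, by simpa using hy⟩, by simp⟩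
  refine h1.trans (le_of_eq ?_)
  rw [add_sub_cancel_left, norm_mul, Complex.norm_I, mul_one, Complex.norm_real, Real.norm_eq_abs]

/-- the function on the real line -/
theorem realBound {R c : ℝ} (hR : 0 < R) {G : ℂ → ℂ} (hG : DifferentiableOn ℂ G (Rc R R))
    (hc : ∀ z ∈ Rc R R, (deriv (deriv G) z).re ≤ -c) (hev : ∀ z ∈ Rc R R, G (-z) = G z) (x : ℝ)
    (hx : |x| < R) : (G x).re ≤ (G 0).re - c / 2 * x ^ 2 := by
  have hd : deriv (fun z : ℂ => G (z - 1 / 4)) = fun z => deriv G (z - 1 / 4) := by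
    funext z
    exact deriv_comp_sub_const _ _ _
  have hin : ∀ z ∈ ball (1 / 4 : ℂ) R, z - 1 / 4 ∈ Rc R R := by
    intro z hz
    rw [mem_ball, dist_eq_norm] at hz
    exact ⟨(Complex.abs_re_le_norm _).trans_lt hz, (Complex.abs_im_le_norm _).trans_lt hz⟩
  have h1 := Pool.Agent.W613.AX.conc R c (fun z => G (z - 1 / 4)) (1 / 4)
    (hG.comp ((differentiable_id.sub_const _).differentiableOn) hin) (by simpa using hR)
    (by
      rw [hd]
      push_cast
      rw [sub_self]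
      exact deriv_zero hR hev)
    (by
      intro t ht
      rw [hd, deriv_comp_sub_const]
      refine hc _ (hin _ ?_)
      rw [mem_ball, dist_eq_norm]
      have e : (t : ℂ) - 1 / 4 = ((t - 1 / 4 : ℝ) : ℂ) := by push_cast; ring
      rw [e, Complex.norm_real]
      exact ht)
    (x + 1 / 4) (by simpa using hx)
  push_cast at h1
  rw [add_sub_cancel_right, sub_self] at h1
  have e2 : (x + 1 / 4 - 1 / 4 : ℝ) = x := by ring
  rwa [e2] at h1

end Pool.Agent.Y837.PH
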