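import Pool.Agent.Y837.PH.Est

/-! The sum over the values of the variable of the axis near a real critical point
(project PH of helper482, part AXX). -/

set_option autoImplicit false

namespace Pool.Agent.Y837.PH

open Finset Filter Topology Metric
open Pool.Agent.W711.HT Pool.Agent.W719.AX
open scoped Real

/-- a sum over a symmetric interval -/
theorem sum_shift (D : ℕ) (f : ℤ → ℂ) :
    ∑ p ∈ Icc (-(D : ℤ)) D, f p = ∑ d ∈ Ico 0 (2 * D + 1), f ((d : ℤ) - D) := by
  refine Finset.sum_nbij' (fun p => (p + D).toNat) (fun d => (d : ℤ) - D) ?_ ?_ ?_ ?_ ?_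
  · intro p hp
    rw [mem_Icc] at hp
    rw [mem_Ico]
    omega
  · intro d hd
    rw [mem_Ico] at hd
    rw [mem_Icc]
    omega
  · intro p hp
    rw [mem_Icc] at hp
    omega
  · intro d hd
    rw [mem_Ico] at hd
    omega
  · intro p hp
    rw [mem_Icc] at hp
    congr 1
    omega

/-- the bound of the summand -/
def Bnd (F : ℂ → ℂ) (N : ℕ) (CH c₁ K r : ℝ) : Prop :=
  ∀ x y : ℝ, |x| < r → |y| < r →
    ‖F (x + y * Complex.I)‖ ≤ CH * Real.exp (N * (-(c₁ * x ^ 2) + K * |x| * |y| + K * y ^ 2))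

theorem Bnd.real {F : ℂ → ℂ} {N : ℕ} {CH c₁ K r : ℝ} (h : Bnd F N CH c₁ K r) (hr : 0 < r) (x : ℝ)
    (hx : |x| < r) : ‖F x‖ ≤ CH * Real.exp (-(N * (c₁ * x ^ 2))) := by
  have h1 := h x 0 hx (by simpa using hr)
  simp only [Complex.ofReal_zero, zero_mul, add_zero, abs_zero, mul_zero, ne_eq, OfNat.ofNat_ne_zero,
    not_false_eq_true, zero_pow] at h1
  refine h1.trans (le_of_eq ?_)
  congr 2
  ring

theorem window (hSI : S_SI) {F : ℂ → ℂ} {N : ℕ} {CH c₁ K r η h : ℝ} (hF : Differentiable ℂ F)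
    (hb : Bnd F N CH c₁ K r) (hCH : 0 ≤ CH) (hc₁ : 0 < c₁) (hK : 0 ≤ K) (hη : 0 < η)
    (hηr : 2 * η < r) (hηK : 3 * K * η ≤ π) (hh : 0 < h) (hhη : h ≤ η)
    (hhc : 24 * (K * h) ≤ c₁ * η) (hN : 1 ≤ N * η) (hNh : 1 ≤ N * h) :
    ‖∑ p ∈ Icc (-(⌊η * N⌋₊ : ℤ)) ⌊η * N⌋₊, F ((p : ℂ) / N) - N * ∫ x in (-η)..η, F x‖ ≤
      4 * (CH * Real.exp (-(N * (c₁ * η ^ 2 / 8))) +
        (2 * (η * N) + 1) * (CH * Real.exp (-(N * (π * h))))) +
      CH * Real.exp (-(N * (c₁ * η ^ 2 / 8))) := by
  have hN0 : 0 < N := by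
    rcases Nat.eq_zero_or_pos N with h0 | h0
    · rw [h0] at hN
      norm_num at hN
    · exact h0
  have hNr : (0 : ℝ) < N := by exact_mod_cast hN0
  have hNc : (N : ℂ) ≠ 0 := by exact_mod_cast hNr.ne'
  set D : ℕ := ⌊η * N⌋₊ with hD
  have hD1 : (D : ℝ) ≤ η * N := Nat.floor_le (by positivity)
  have hD2 : η * N < D + 1 := Nat.lt_floor_add_one _
  set L : ℝ := (D + 1 / 2) / N with hL
  have hL1 : L ≤ 2 * η := by
    rw [hL, div_le_iff₀ hNr]
    nlinarith
  have hL2 : η / 2 ≤ L := by
    rw [hL, le_div_iff₀ hNr]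
    nlinarith
  have hL3 : |L - η| ≤ 1 / (2 * N) := by
    have e : L - η = (D + 1 / 2 - η * N) / N := by
      rw [hL]
      field_simp
    rw [e, abs_div, abs_of_pos hNr, div_le_div_iff₀ hNr (by positivity)]
    have : |(D : ℝ) + 1 / 2 - η * N| ≤ 1 / 2 := by
      rw [abs_le]
      constructor <;> linarith
    nlinarith
  have hFc : Continuous fun x : ℝ => F x := hF.continuous.comp Complex.continuous_ofReal
  -- the sum
  have e1 : ∑ p ∈ Icc (-(D : ℤ)) D, F ((p : ℂ) / N) =
      ∑ d ∈ Ico 0 (2 * D + 1), F ((d : ℂ) / N - D / N) := by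
    rw [sum_shift D (fun p => F ((p : ℂ) / N))]
    refine sum_congr rfl fun d _ => ?_
    congr 1
    push_cast
    ring
  have hsi := hSI (fun z => F (z - D / N)) N 0 (2 * D + 1) h
    (CH * Real.exp (-(N * (c₁ * η ^ 2 / 8)))) (CH * Real.exp (N * (π * h))) hN0 (Nat.zero_le _) hNh
    (fun x y _ _ _ => by
      have : Differentiable ℂ fun z : ℂ => F (z - D / N) :=
        hF.comp (differentiable_id.sub_const _)
      exact this _)
    (by
      intro y hy
      have hyr : |y| < r := by linarith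
      have hend : ∀ L' : ℝ, |L'| = L → ‖F (L' + y * Complex.I)‖ ≤
          CH * Real.exp (-(N * (c₁ * η ^ 2 / 8))) := by
        intro L' hL'
        refine (hb L' y (by rw [hL']; linarith) hyr).trans ?_
        refine mul_le_mul_of_nonneg_left (Real.exp_le_exp.2 ?_) hCH
        rw [hL', ← sq_abs L', hL', ← sq_abs y]
        have a0 : 0 ≤ |y| := abs_nonneg y
        have a1 : K * L * |y| ≤ K * (2 * η) * h := by gcongr
        have a2 : K * |y| ^ 2 ≤ K * (η * h) := by
          refine mul_le_mul_of_nonneg_left ?_ hK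
          rw [sq]
          exact mul_le_mul (hy.trans hhη) hy a0 hη.le
        have a3 : c₁ * (η / 2) ^ 2 ≤ c₁ * L ^ 2 := by gcongr
        have a4 : 24 * (K * h) * η ≤ c₁ * η * η := mul_le_mul_of_nonneg_right hhc hη.le
        have a5 : -((N : ℝ) * (c₁ * η ^ 2 / 8)) = N * (-(c₁ * η ^ 2 / 8)) := by ring
        rw [a5]
        refine mul_le_mul_of_nonneg_left ?_ hNr.le
        nlinarith
      constructor
      · have e2 : ((((0 : ℕ) : ℝ) - 1 / 2) / N : ℝ) + y * Complex.I - (D : ℂ) / N =
            ((-L : ℝ) : ℂ) + y * Complex.I := by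
          rw [hL]
          push_cast
          field_simp
          ring
        show ‖F (((((0 : ℕ) : ℝ) - 1 / 2) / N : ℝ) + y * Complex.I - (D : ℂ) / N)‖ ≤ _
        rw [e2]
        exact hend _ (by rw [abs_neg, abs_of_nonneg (by linarith)])
      · have e2 : ((((2 * D + 1 : ℕ) : ℝ) - 1 / 2) / N : ℝ) + y * Complex.I - (D : ℂ) / N =
            ((L : ℝ) : ℂ) + y * Complex.I := by
          rw [hL]
          push_cast
          field_simp
          ring
        show ‖F (((((2 * D + 1 : ℕ) : ℝ) - 1 / 2) / N : ℝ) + y * Complex.I - (D : ℂ) / N)‖ ≤ _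
        rw [e2]
        exact hend _ (by rw [abs_of_nonneg (by linarith)]))
    (by
      intro x hx1 hx2
      have hx : |x - D / N| ≤ 2 * η := by
        refine le_trans ?_ hL1
        rw [hL, abs_le]
        push_cast at hx1 hx2
        constructor
        · have e3 : -((D + 1 / 2) / N : ℝ) = (0 - 1 / 2) / N - D / N := by ring
          rw [e3]
          linarith
        · have e3 : ((D + 1 / 2) / N : ℝ) = (2 * D + 1 - 1 / 2) / N - D / N := by ring
          rw [e3]
          linarith
      have hgen : ∀ y : ℝ, |y| = h → ‖F (((x - D / N : ℝ) : ℂ) + y * Complex.I)‖ ≤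
          CH * Real.exp (N * (π * h)) := by
        intro y hy
        refine (hb _ y (by linarith) (by rw [hy]; linarith)).trans ?_
        refine mul_le_mul_of_nonneg_left (Real.exp_le_exp.2 ?_) hCH
        refine mul_le_mul_of_nonneg_left ?_ hNr.le
        rw [← sq_abs y, hy]
        have a0 : 0 ≤ |x - D / N| := abs_nonneg _
        have a1 : K * |x - D / N| * h ≤ K * (2 * η) * h := by gcongr
        have a2 : K * h ^ 2 ≤ K * (η * h) := by
          refine mul_le_mul_of_nonneg_left ?_ hK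
          rw [sq]
          exact mul_le_mul_of_nonneg_right hhη hh.le
        have a3 : 0 ≤ c₁ * (x - D / N) ^ 2 := by positivity
        have a4 : 3 * K * η * h ≤ π * h := mul_le_mul_of_nonneg_right hηK hh.le
        nlinarith
      constructor
      · have e2 : (x : ℂ) + h * Complex.I - (D : ℂ) / N =
            ((x - D / N : ℝ) : ℂ) + (h : ℝ) * Complex.I := by
          push_cast
          ring
        show ‖F ((x : ℂ) + h * Complex.I - (D : ℂ) / N)‖ ≤ _
        rw [e2]
        exact hgen h (abs_of_pos hh)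
      · have e2 : (x : ℂ) - h * Complex.I - (D : ℂ) / N =
            ((x - D / N : ℝ) : ℂ) + ((-h : ℝ) : ℂ) * Complex.I := by
          push_cast
          ring
        show ‖F ((x : ℂ) - h * Complex.I - (D : ℂ) / N)‖ ≤ _
        rw [e2]
        exact hgen (-h) (by rw [abs_neg, abs_of_pos hh]))
  -- the integral
  have e2 : ∫ x in ((((0 : ℕ) : ℝ) - 1 / 2) / N)..((((2 * D + 1 : ℕ) : ℝ) - 1 / 2) / N),
      F ((x : ℂ) - D / N) = ∫ x in (-L)..L, F x := by
    have e3 : ∀ x : ℝ, F ((x : ℂ) - D / N) = (fun x : ℝ => F x) (x - D / N) := by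
      intro x
      show _ = F ((x - D / N : ℝ) : ℂ)
      push_cast
      rfl
    simp only [e3]
    rw [intervalIntegral.integral_comp_sub_right (fun x : ℝ => F x)]
    congr 1
    · rw [hL]
      push_cast
      ring
    · rw [hL]
      push_cast
      ring
  have hsi' : ‖∑ d ∈ Ico 0 (2 * D + 1), F ((d : ℂ) / N - D / N) - N * ∫ x in (-L)..L, F x‖ ≤
      4 * (CH * Real.exp (-(N * (c₁ * η ^ 2 / 8))) +
        (2 * (η * N) + 1) * (CH * Real.exp (-(N * (π * h))))) := by
    rw [← e2]
    refine hsi.trans ?_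
    refine mul_le_mul_of_nonneg_left (add_le_add le_rfl ?_) (by norm_num)
    have e4 : (((2 * D + 1 : ℕ) : ℝ) - ((0 : ℕ) : ℝ)) * (CH * Real.exp (N * (π * h))) *
        Real.exp (-(2 * π * N * h)) = (2 * D + 1) * (CH * Real.exp (-(N * (π * h)))) := by
      have : Real.exp (-(N * (π * h))) = Real.exp (N * (π * h)) * Real.exp (-(2 * π * N * h)) := by
        rw [← Real.exp_add]
        congr 1
        ring
      rw [this]
      push_cast
      ring
    rw [e4]
    refine mul_le_mul_of_nonneg_right (by linarith) (by positivity)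
  have hint : ∀ a b : ℝ, IntervalIntegrable (fun x : ℝ => F x) MeasureTheory.volume a b :=
    fun a b => hFc.intervalIntegrable a b
  have e5 : ∫ x in (-L)..L, F x = (∫ x in (-L)..(-η), F x) + (∫ x in (-η)..η, F x) +
      ∫ x in η..L, F x := by
    rw [intervalIntegral.integral_add_adjacent_intervals (hint _ _) (hint _ _),
      intervalIntegral.integral_add_adjacent_intervals (hint _ _) (hint _ _)]
  have hbd : ∀ x : ℝ, η / 2 ≤ |x| → |x| ≤ 2 * η →
      ‖F x‖ ≤ CH * Real.exp (-(N * (c₁ * η ^ 2 / 8))) := by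
    intro x h1 h2
    refine (hb.real (by linarith) x (by linarith)).trans ?_
    refine mul_le_mul_of_nonneg_left (Real.exp_le_exp.2 ?_) hCH
    rw [neg_le_neg_iff]
    refine mul_le_mul_of_nonneg_left ?_ hNr.le
    rw [← sq_abs x]
    have a3 : c₁ * (η / 2) ^ 2 ≤ c₁ * |x| ^ 2 := by gcongr
    nlinarith [mul_pos hc₁ (pow_pos hη 2)]
  have i1 : ‖∫ x in (-L)..(-η), F x‖ ≤
      CH * Real.exp (-(N * (c₁ * η ^ 2 / 8))) * (1 / (2 * N)) := by
    refine (intervalIntegral.norm_integral_le_of_norm_le_const (C := CH * Real.exp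
      (-(N * (c₁ * η ^ 2 / 8)))) ?_).trans ?_
    · intro x hx
      rw [Set.mem_uIoc] at hx
      have hx' : x < 0 := by rcases hx with hx | hx <;> linarith
      refine hbd x ?_ ?_
      · rw [abs_of_neg hx']
        rcases hx with hx | hx <;> linarith
      · rw [abs_of_neg hx']
        rcases hx with hx | hx <;> linarith
    · refine mul_le_mul_of_nonneg_left ?_ (by positivity)
      refine le_trans (le_of_eq ?_) hL3
      congr 1
      ring
  have i2 : ‖∫ x in η..L, F x‖ ≤
      CH * Real.exp (-(N * (c₁ * η ^ 2 / 8))) * (1 / (2 * N)) := by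
    refine (intervalIntegral.norm_integral_le_of_norm_le_const (C := CH * Real.exp
      (-(N * (c₁ * η ^ 2 / 8)))) ?_).trans ?_
    · intro x hx
      rw [Set.mem_uIoc] at hx
      have hx' : 0 < x := by rcases hx with hx | hx <;> linarith
      refine hbd x ?_ ?_
      · rw [abs_of_pos hx']
        rcases hx with hx | hx <;> linarith
      · rw [abs_of_pos hx']
        rcases hx with hx | hx <;> linarith
    · exact mul_le_mul_of_nonneg_left hL3 (by positivity)
  have hfin : ∑ p ∈ Icc (-(D : ℤ)) D, F ((p : ℂ) / N) - N * ∫ x in (-η)..η, F x =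
      (∑ d ∈ Ico 0 (2 * D + 1), F ((d : ℂ) / N - D / N) - N * ∫ x in (-L)..L, F x) +
      N * ((∫ x in (-L)..(-η), F x) + ∫ x in η..L, F x) := by
    rw [e1, e5]
    ring
  rw [hfin]
  refine (norm_add_le _ _).trans (add_le_add hsi' ?_)
  rw [norm_mul, Complex.norm_natCast]
  refine (mul_le_mul_of_nonneg_left ((norm_add_le _ _).trans (add_le_add i1 i2)) hNr.le).trans
    (le_of_eq ?_)
  field_simp
  ring

end Pool.Agent.Y837.PH
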